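import Pool.Agent.H585R5.E83.Stmts

namespace Pool.Agent.H973E83

open Pool.Agent.H585R5.E83 Filter Finset Topology

theorem zz_cont : Continuous zz := by
  unfold zz
  fun_prop

theorem zz_norm (t : ℝ) : ‖zz t‖ = 1 := by
  unfold zz
  exact Complex.norm_exp_ofReal_mul_I _

theorem zz_sq (t : ℝ) : (zz t).re ^ 2 + (zz t).im ^ 2 = 1 := by
  have h := zz_norm t
  rw [Complex.norm_def, Real.sqrt_eq_one, Complex.normSq_apply] at h
  nlinarith

theorem D_re (t : ℝ) : ((zz t - 1) ^ 2 + 4).re = 4 - 2 * (zz t).re + 2 * (zz t).re ^ 2 := by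
  have h := zz_sq t
  have h1 : ((zz t - 1) ^ 2 + 4).re = ((zz t).re - 1) ^ 2 - (zz t).im ^ 2 + 4 := by
    simp [pow_two]
  rw [h1]
  nlinarith

theorem D_slit (t : ℝ) : ((zz t - 1) ^ 2 + 4) ∈ Complex.slitPlane := by
  left
  rw [D_re]
  nlinarith [sq_nonneg ((zz t).re - 1 / 2)]

theorem ww_cont : Continuous ww := by
  unfold ww
  apply Continuous.cpow
  · exact ((zz_cont.sub continuous_const).pow 2).add continuous_const
  · exact continuous_const
  · intro t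
    exact D_slit t

theorem ww_sq (t : ℝ) : ww t ^ 2 = (zz t - 1) ^ 2 + 4 := by
  unfold ww
  rw [← Complex.cpow_nat_mul]
  norm_num

theorem ww_norm (t : ℝ) : 1 ≤ ‖ww t‖ := by
  have h1 : ‖ww t‖ ^ 2 = ‖(zz t - 1) ^ 2 + 4‖ := by
    rw [← norm_pow, ww_sq]
  have h2 : (1 : ℝ) ≤ ‖(zz t - 1) ^ 2 + 4‖ := by
    refine le_trans ?_ (Complex.re_le_norm _)
    rw [D_re]
    nlinarith [sq_nonneg ((zz t).re - 1 / 2)]
  nlinarith [norm_nonneg (ww t)]

theorem taskRoots : TaskRoots := by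
  have ha : Continuous aa := by
    unfold aa
    exact (continuous_const.sub zz_cont).add (zz_cont.pow 2)
  have hsum : ∀ t, l1 t + l2 t = aa t := fun t => by unfold l1 l2; ring
  have hprod : ∀ t, l1 t * l2 t = bb t := fun t => by
    have : l1 t * l2 t = (aa t ^ 2 - zz t ^ 2 * ww t ^ 2) / 4 := by unfold l1 l2; ring
    rw [this, ww_sq]
    unfold aa bb
    ring
  have hdiff : ∀ t, l1 t - l2 t = zz t * ww t := fun t => by unfold l1 l2; ring
  have hz0 : zz 0 = 1 := by unfold zz; simp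
  have hw0 : ww 0 = 2 := by
    unfold ww
    rw [hz0]
    have : ((1 : ℂ) - 1) ^ 2 + 4 = ((4 : ℝ) : ℂ) := by norm_num
    rw [this]
    have h2 : ((1 : ℂ) / 2) = (((1 / 2 : ℝ)) : ℂ) := by norm_num
    rw [h2, ← Complex.ofReal_cpow (by norm_num)]
    have h3 : (4 : ℝ) ^ (1 / 2 : ℝ) = 2 := by
      rw [← Real.sqrt_eq_rpow]
      rw [show (4 : ℝ) = 2 ^ 2 by norm_num, Real.sqrt_sq (by norm_num)]
    rw [h3]
    norm_num
  refine ⟨?_, ?_, hsum, hprod, ?_, ?_, ?_, ?_⟩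
  · unfold l1
    exact (ha.add (zz_cont.mul ww_cont)).div_const 2
  · unfold l2
    exact (ha.sub (zz_cont.mul ww_cont)).div_const 2
  · intro t
    rw [hdiff, norm_mul, zz_norm, one_mul]
    exact ww_norm t
  · unfold l1 aa
    rw [hz0, hw0]
    norm_num
  · unfold l2 aa
    rw [hz0, hw0]
    norm_num
  · intro t
    -- parallelogram
    have hpar : ‖l1 t‖ ^ 2 + ‖l2 t‖ ^ 2 = (‖aa t‖ ^ 2 + ‖ww t‖ ^ 2) / 2 := by
      have h1 : ‖l1 t + l2 t‖ ^ 2 + ‖l1 t - l2 t‖ ^ 2 = 2 * (‖l1 t‖ ^ 2 + ‖l2 t‖ ^ 2) := by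
        have := parallelogram_law_with_norm ℝ (l1 t) (l2 t)
        nlinarith
      rw [hsum, hdiff, norm_mul, zz_norm, one_mul] at h1
      linarith
    have hz := zz_sq t
    have haa : ‖aa t‖ ^ 2 = 2 - 6 * (zz t).re + 8 * (zz t).re ^ 2 := by
      rw [← Complex.normSq_eq_norm_sq, Complex.normSq_apply]
      have hre : (aa t).re = 2 - (zz t).re + ((zz t).re ^ 2 - (zz t).im ^ 2) := by
        unfold aa; simp [pow_two]
      have him : (aa t).im = - (zz t).im + 2 * (zz t).re * (zz t).im := by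
        unfold aa; simp [pow_two]; ring
      rw [hre, him]
      have him2 : (zz t).im ^ 2 = 1 - (zz t).re ^ 2 := by linarith
      have : (2 - (zz t).re + ((zz t).re ^ 2 - (zz t).im ^ 2)) *
          (2 - (zz t).re + ((zz t).re ^ 2 - (zz t).im ^ 2)) +
          (-(zz t).im + 2 * (zz t).re * (zz t).im) * (-(zz t).im + 2 * (zz t).re * (zz t).im) =
          (2 - (zz t).re + ((zz t).re ^ 2 - (zz t).im ^ 2)) ^ 2 +
          (2 * (zz t).re - 1) ^ 2 * (zz t).im ^ 2 := by ring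
      rw [this, him2]
      ring
    have hww : 4 - 2 * (zz t).re + 2 * (zz t).re ^ 2 ≤ ‖ww t‖ ^ 2 := by
      rw [← norm_pow, ww_sq, ← D_re]
      exact Complex.re_le_norm _
    have hM : ‖l1 t‖ ^ 2 ≤ MM t ^ 2 ∧ ‖l2 t‖ ^ 2 ≤ MM t ^ 2 := by
      unfold MM
      constructor
      · exact pow_le_pow_left₀ (norm_nonneg _) (le_max_left _ _) 2
      · exact pow_le_pow_left₀ (norm_nonneg _) (le_max_right _ _) 2
    have hM0 : 0 ≤ MM t := le_trans (norm_nonneg _) (le_max_left _ _)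
    have hM2 : 1 ≤ MM t ^ 2 := by
      nlinarith [sq_nonneg (5 * (zz t).re - 2), hM.1, hM.2]
    nlinarith

end Pool.Agent.H973E83
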